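import Pool.Agent.EQC.Stmts

/-!
# Squad EQC, module GAM: the conflict graph of the pairs and single edges
-/

open SimpleGraph Finset
open Pool.Agent.Helper51_Equitable (edges nbrs vertexSum nb IsEquitableProper Nice)

namespace Pool.Agent.EQC.H64

variable {V : Type} [Fintype V] {G : SimpleGraph V} {D : ℕ}

/-- at most two edges have the same owner -/
theorem own_card {ι : Type} (P : Prs G D ι) {Ω : Type} (own : Sym2 V → Ω)
    (h2 : ∀ e ∈ edges G, ∀ e' ∈ edges G, own e = own e' → e = e' ∨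
      (∃ i, e = P.e0 i ∧ e' = P.e1 i) ∨ (∃ i, e = P.e1 i ∧ e' = P.e0 i))
    (x : Ω) (T : Finset (Sym2 V)) (hT : ∀ e ∈ T, e ∈ edges G ∧ own e = x) : T.card ≤ 2 := by
  by_contra hc
  obtain ⟨a, b, c, ha, hb, hcT, hab, hac, hbc⟩ := Finset.two_lt_card_iff.1 (not_le.1 hc)
  have k1 := h2 a (hT a ha).1 b (hT b hb).1 ((hT a ha).2.trans (hT b hb).2.symm)
  have k2 := h2 a (hT a ha).1 c (hT c hcT).1 ((hT a ha).2.trans (hT c hcT).2.symm)
  rcases k1 with h | ⟨i, h1, h3⟩ | ⟨i, h1, h3⟩
  · exact hab h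
  · rcases k2 with h | ⟨j, h4, h5⟩ | ⟨j, h4, h5⟩
    · exact hac h
    · have hij := P.e0_inj i j (h1.symm.trans h4)
      exact hbc (h3.trans ((congrArg P.e1 hij).trans h5.symm))
    · exact P.e01 i j (h1.symm.trans h4)
  · rcases k2 with h | ⟨j, h4, h5⟩ | ⟨j, h4, h5⟩
    · exact hac h
    · exact P.e01 j i (h4.symm.trans h1)
    · have hij := P.e1_inj i j (h1.symm.trans h4)
      exact hbc (h3.trans ((congrArg P.e0 hij).trans h5.symm))

open Classical in
/-- the vertices of an edge -/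
noncomputable def vs (e : Sym2 V) : Finset V := univ.filter (fun z => z ∈ e)

theorem mem_vs {e : Sym2 V} {z : V} : z ∈ vs e ↔ z ∈ e := by
  unfold vs
  simp

theorem vs_card (e : Sym2 V) : (vs e).card ≤ 2 := by
  classical
  induction e using Sym2.ind with
  | _ a b =>
    refine (Finset.card_le_card (t := {a, b}) fun z hz => ?_).trans Finset.card_le_two
    rcases Sym2.mem_iff.1 (mem_vs.1 hz) with h | h
    · simp [h]
    · simp [h]

theorem cnt_le {α : Type} [Fintype α] (p : α → Prop) (s : Finset α) (h : ∀ y, p y → y ∈ s) :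
    cnt p ≤ s.card := by
  classical
  unfold cnt
  exact Finset.card_le_card fun y hy => h y (Finset.mem_filter.1 hy).2

open Classical in
/-- GAM -/
theorem gam : GamStmt := by
  intro V _ G D ι _ P Ω _ own _ h2
  let K : V → V → Prop := fun u w => G.Adj u w ∧ dg G u = dg G w ∧ ¬ Hi G D u ∧ 2 ≤ dg G u
  let E : V → V → Sym2 V := fun u w =>
    if h : K u w then Classical.choose (P.low u w h.1 h.2.1 h.2.2.1 h.2.2.2) else s(u, w)
  have hE : ∀ u w, K u w → E u w ∈ edges G ∧ u ∈ E u w ∧ w ∉ E u w ∧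
      (∀ i, E u w = P.e0 i → w ∉ P.e1 i) ∧ (∀ i, E u w = P.e1 i → w ∉ P.e0 i) := by
    intro u w h
    have h1 : E u w = Classical.choose (P.low u w h.1 h.2.1 h.2.2.1 h.2.2.2) := dif_pos h
    rw [h1]
    exact Classical.choose_spec (P.low u w h.1 h.2.1 h.2.2.1 h.2.2.2)
  let A : Ω → Ω → Prop := fun x y =>
    ∃ u w e', K u w ∧ e' ∈ edges G ∧ w ∈ e' ∧ own (E u w) = x ∧ own e' = y
  have hirr : ∀ x, ¬ A x x := by
    rintro x ⟨u, w, e', hK, he', hw, h3, h4⟩
    obtain ⟨g1, _, g3, g4, g5⟩ := hE u w hK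
    rcases h2 _ g1 _ he' (h3.trans h4.symm) with h | ⟨i, h5, h6⟩ | ⟨i, h5, h6⟩
    · exact g3 (h ▸ hw)
    · exact g4 i h5 (h6 ▸ hw)
    · exact g5 i h5 (h6 ▸ hw)
  refine ⟨fun x y => A x y ∨ A y x, fun x y h => h.symm, ?_, ?_, ?_⟩
  · rintro x (h | h)
    · exact hirr x h
    · exact hirr x h
  · intro x
    -- the vertices of the edges of `x`
    let T : Finset (Sym2 V) := (edges G).filter fun e => own e = x
    have hT2 : T.card ≤ 2 := own_card P own h2 x T fun e he => Finset.mem_filter.1 he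
    let S : Finset V := T.biUnion vs
    have hS4 : S.card ≤ 4 := by
      have h5 : S.card ≤ T.card * 2 := Finset.card_biUnion_le_card_mul T vs 2 fun e _ => vs_card e
      omega
    have hSm : ∀ e ∈ edges G, own e = x → ∀ z ∈ e, z ∈ S := fun e he hx z hz =>
      Finset.mem_biUnion.2 ⟨e, Finset.mem_filter.2 ⟨he, hx⟩, mem_vs.2 hz⟩
    let L : Finset V := S.filter fun u => ¬ Hi G D u
    have hL4 : L.card ≤ 4 := (Finset.card_filter_le _ _).trans hS4
    -- first kind
    let Y1 : Finset Ω := L.biUnion fun u => ((nbrs G u).filter fun w => dg G u = dg G w).biUnion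
      fun w => (nbrs G w).image fun z => own s(w, z)
    have hY1 : Y1.card ≤ 4 * (D * D) := by
      refine (Finset.card_biUnion_le_card_mul L _ (D * D) fun u hu => ?_).trans
        (Nat.mul_le_mul_right _ hL4)
      have hu1 : dg G u ≤ D := (not_le.1 (Finset.mem_filter.1 hu).2).le
      refine (Finset.card_biUnion_le_card_mul _ _ D fun w hw => ?_).trans
        (Nat.mul_le_mul_right _ ((Finset.card_filter_le _ _).trans hu1))
      refine Finset.card_image_le.trans ?_
      have h6 := (Finset.mem_filter.1 hw).2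
      have h7 : (nbrs G w).card = dg G w := rfl
      omega
    -- second kind
    let Y2 : Finset Ω := L.biUnion fun w => (nbrs G w).image fun u => own (E u w)
    have hY2 : Y2.card ≤ 4 * D := by
      refine (Finset.card_biUnion_le_card_mul L _ D fun w hw => ?_).trans
        (Nat.mul_le_mul_right _ hL4)
      have hw1 : dg G w ≤ D := (not_le.1 (Finset.mem_filter.1 hw).2).le
      exact Finset.card_image_le.trans hw1
    have hsub : ∀ y, A x y ∨ A y x → y ∈ Y1 ∪ Y2 := by
      intro y hy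
      rcases hy with ⟨u, w, e', hK, he', hw, h3, h4⟩ |
        ⟨u, w, e', hK, he', hw, h3, h4⟩
      · obtain ⟨g1, g2, -, -, -⟩ := hE u w hK
        refine Finset.mem_union_left _ (Finset.mem_biUnion.2 ⟨u, Finset.mem_filter.2
          ⟨hSm _ g1 h3 u g2, hK.2.2.1⟩, Finset.mem_biUnion.2 ⟨w, Finset.mem_filter.2
          ⟨Helper51_Equitable.mem_nbrs.2 hK.1, hK.2.1⟩, ?_⟩⟩)
        obtain ⟨z, hz⟩ := Sym2.mem_iff_exists.1 hw
        refine Finset.mem_image.2 ⟨z, Helper51_Equitable.mem_nbrs.2 ?_, ?_⟩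
        · have h8 := Helper51_Equitable.mem_edges.1 he'
          rw [hz] at h8
          exact h8
        · rw [← hz]
          exact h4
      · refine Finset.mem_union_right _ (Finset.mem_biUnion.2 ⟨w, Finset.mem_filter.2
          ⟨hSm _ he' h4 w hw, ?_⟩, Finset.mem_image.2 ⟨u,
            Helper51_Equitable.mem_nbrs.2 hK.1.symm, h3⟩⟩)
        have h9 := hK.2.2.1
        unfold Hi at h9 ⊢
        rw [← hK.2.1]
        exact h9
    have h10 : cnt (fun y => A x y ∨ A y x) ≤ Y1.card + Y2.card :=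
      (cnt_le _ _ hsub).trans (Finset.card_union_le Y1 Y2)
    have h11 : D ≤ D * D := Nat.le_mul_self D
    have h12 : 8 * D ^ 2 = 4 * (D * D) + 4 * (D * D) := by ring
    calc cnt (fun y => A x y ∨ A y x) ≤ Y1.card + Y2.card := h10
      _ ≤ 8 * D ^ 2 := by omega
  · intro u w h3 h4 h5 h6
    have hK : K u w := ⟨h3, h4, h5, h6⟩
    obtain ⟨g1, g2, -, -, -⟩ := hE u w hK
    exact ⟨E u w, g1, g2, fun e' he' hw => Or.inl ⟨u, w, e', hK, he', hw, rfl, rfl⟩⟩

end Pool.Agent.EQC.H64
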